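import Pool.Agent.Q62.CC.Stm

/-!
# Project CC, job S_ODE: term by term differentiation of the power series
-/

set_option autoImplicit false

open Set Filter Topology MeasureTheory

namespace Pool.Agent.Q192.CC

open Pool.Agent.Q62.CC

/-- term by term differentiation -/
lemma term_deriv {x₀ x₁ y₀ z : ℝ} {a b : ℕ → ℝ → ℝ} {u : ℕ → ℝ} (hu : Summable u)
    (hy₀ : y₀ ∈ Ioo x₀ x₁)
    (hd : ∀ k, ∀ x ∈ Ioo x₀ x₁, HasDerivAt (a k) (b k x) x)
    (hb : ∀ k, ∀ x ∈ Ioo x₀ x₁, |b k x| * |z| ^ k ≤ u k)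
    (ha : Summable fun k => a k y₀ * z ^ k) {x : ℝ} (hx : x ∈ Ioo x₀ x₁) :
    HasDerivAt (fun x => ∑' k, a k x * z ^ k) (∑' k, b k x * z ^ k) x := by
  refine hasDerivAt_tsum_of_isPreconnected (u := u) (t := Ioo x₀ x₁)
    (g := fun k x => a k x * z ^ k) (g' := fun k x => b k x * z ^ k) hu isOpen_Ioo
    isPreconnected_Ioo ?_ ?_ hy₀ ha hx
  · intro k y hy
    exact (hd k y hy).mul_const (z ^ k)
  · intro k y hy
    rw [Real.norm_eq_abs, abs_mul, abs_pow]
    exact hb k y hy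

/-- the majorant -/
noncomputable def mj (C K z : ℝ) (k : ℕ) : ℝ := C * ((K * |z|) ^ k / (k.factorial : ℝ))

lemma mj_sum (C K z : ℝ) : Summable (mj C K z) := by
  unfold mj
  exact (Real.summable_pow_div_factorial (K * |z|)).mul_left C

/-- the shifted majorant -/
noncomputable def mj' (C K z : ℝ) : ℕ → ℝ
  | 0 => 0
  | k + 1 => |z| * mj C K z k

lemma mj'_sum (C K z : ℝ) : Summable (mj' C K z) := by
  rw [← summable_nat_add_iff 1]
  exact (mj_sum C K z).mul_left |z|

lemma le_mj {C K z v : ℝ} {k n : ℕ} (hC : 0 ≤ C) (hK : 0 ≤ K) (hn : k ≤ n)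
    (hv : v ≤ C * K ^ k / (n.factorial : ℝ)) : v * |z| ^ k ≤ mj C K z k := by
  unfold mj
  have h1 : (0 : ℝ) < k.factorial := by positivity
  have h2 : ((k.factorial : ℕ) : ℝ) ≤ ((n.factorial : ℕ) : ℝ) := by
    exact_mod_cast Nat.factorial_le hn
  calc v * |z| ^ k ≤ (C * K ^ k / (n.factorial : ℝ)) * |z| ^ k :=
        mul_le_mul_of_nonneg_right hv (by positivity)
    _ ≤ (C * K ^ k / (k.factorial : ℝ)) * |z| ^ k := by
        apply mul_le_mul_of_nonneg_right _ (by positivity)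
        exact div_le_div_of_nonneg_left (by positivity) h1 h2
    _ = C * ((K * |z|) ^ k / (k.factorial : ℝ)) := by rw [mul_pow]; ring

lemma summable_of {a : ℕ → ℝ} {z : ℝ} {u : ℕ → ℝ} (hu : Summable u)
    (h : ∀ k, |a k| * |z| ^ k ≤ u k) : Summable fun k => a k * z ^ k := by
  refine Summable.of_norm_bounded hu ?_
  intro k
  rw [Real.norm_eq_abs, abs_mul, abs_pow]
  exact h k

theorem t_ODE (hp1 : S_DER) (hp2 : S_BND) (hp3 : S_FAM) : S_ODE := by
  intro m x₀ x₁ α β M c hW z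
  have hα : α ∈ Ioo x₀ x₁ := ⟨hW.h0, hW.hab.trans hW.h1⟩
  set L : ℝ := x₁ - x₀ with hL
  have hLpos : 0 < L := by
    have := hα.1.trans hα.2
    rw [hL]; linarith
  have hMpos : 0 < M := (hW.pos α hα).trans_le (hW.le α hα)
  set K : ℝ := M * L ^ 2 with hKdef
  have hK : 0 < K := by positivity
  have habs : ∀ x ∈ Ioo x₀ x₁, |x - α| ≤ L := by
    intro x hx
    rw [abs_le]
    constructor
    · have := hx.1; have := hα.2; rw [hL]; linarith
    · have := hx.2; have := hα.1; rw [hL]; linarith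
  -- bounds
  have bcf : ∀ k, ∀ x ∈ Ioo x₀ x₁, |cf m α k x| * |z| ^ k ≤ mj 1 K z k := by
    intro k x hx
    refine le_mj zero_le_one hK.le (n := 2 * k) (by omega) ?_
    refine (hp2 m x₀ x₁ α β M c hW k x hx).1.trans ?_
    apply div_le_div_of_nonneg_right _ (by positivity)
    have h1 : |x - α| ^ (2 * k) ≤ L ^ (2 * k) :=
      pow_le_pow_left₀ (abs_nonneg _) (habs x hx) _
    calc M ^ k * |x - α| ^ (2 * k) ≤ M ^ k * L ^ (2 * k) :=
          mul_le_mul_of_nonneg_left h1 (by positivity)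
      _ = 1 * K ^ k := by rw [hKdef, mul_pow, pow_mul]; ring
  have bsf : ∀ k, ∀ x ∈ Ioo x₀ x₁, |sf m α k x| * |z| ^ k ≤ mj L K z k := by
    intro k x hx
    refine le_mj hLpos.le hK.le (n := 2 * k + 1) (by omega) ?_
    refine (hp2 m x₀ x₁ α β M c hW k x hx).2.1.trans ?_
    apply div_le_div_of_nonneg_right _ (by positivity)
    have h1 : |x - α| ^ (2 * k + 1) ≤ L ^ (2 * k + 1) :=
      pow_le_pow_left₀ (abs_nonneg _) (habs x hx) _
    calc M ^ k * |x - α| ^ (2 * k + 1) ≤ M ^ k * L ^ (2 * k + 1) :=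
          mul_le_mul_of_nonneg_left h1 (by positivity)
      _ = L * K ^ k := by rw [hKdef, mul_pow, pow_succ, pow_mul]; ring
  have bsd : ∀ k, ∀ x ∈ Ioo x₀ x₁, |sd m α k x| * |z| ^ k ≤ mj 1 K z k := by
    intro k x hx
    refine le_mj zero_le_one hK.le (n := 2 * k) (by omega) ?_
    refine (hp2 m x₀ x₁ α β M c hW k x hx).2.2.2.trans ?_
    apply div_le_div_of_nonneg_right _ (by positivity)
    have h1 : |x - α| ^ (2 * k) ≤ L ^ (2 * k) :=
      pow_le_pow_left₀ (abs_nonneg _) (habs x hx) _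
    calc M ^ k * |x - α| ^ (2 * k) ≤ M ^ k * L ^ (2 * k) :=
          mul_le_mul_of_nonneg_left h1 (by positivity)
      _ = 1 * K ^ k := by rw [hKdef, mul_pow, pow_mul]; ring
  have bcd : ∀ k, ∀ x ∈ Ioo x₀ x₁, |cd m α k x| * |z| ^ k ≤ mj L⁻¹ K z k := by
    intro k x hx
    rcases k with _ | k
    · have h0 : cd m α 0 x = 0 := rfl
      rw [h0, abs_zero, zero_mul]
      unfold mj
      positivity
    · refine le_mj (by positivity) hK.le (n := 2 * k + 1) (by omega) ?_
      refine (hp2 m x₀ x₁ α β M c hW k x hx).2.2.1.trans ?_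
      apply div_le_div_of_nonneg_right _ (by positivity)
      have h1 : |x - α| ^ (2 * k + 1) ≤ L ^ (2 * k + 1) :=
        pow_le_pow_left₀ (abs_nonneg _) (habs x hx) _
      calc M ^ (k + 1) * |x - α| ^ (2 * k + 1) ≤ M ^ (k + 1) * L ^ (2 * k + 1) :=
            mul_le_mul_of_nonneg_left h1 (by positivity)
        _ = L⁻¹ * K ^ (k + 1) := by
            rw [hKdef, mul_pow, ← pow_mul, show 2 * (k + 1) = (2 * k + 1) + 1 by ring,
              pow_succ L (2 * k + 1)]
            field_simp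
  -- derivatives
  have dC : ∀ x ∈ Ioo x₀ x₁, HasDerivAt (Cz m α z) (Cdz m α z x) x := by
    intro x hx
    exact term_deriv (mj_sum L⁻¹ K z) hα
      (fun k y hy => (hp1 m x₀ x₁ α β M c hW k y hy).1) bcd
      (summable_of (mj_sum 1 K z) fun k => bcf k α hα) hx
  have dS : ∀ x ∈ Ioo x₀ x₁, HasDerivAt (Sz m α z) (Sdz m α z x) x := by
    intro x hx
    exact term_deriv (mj_sum 1 K z) hα
      (fun k y hy => (hp1 m x₀ x₁ α β M c hW k y hy).2.1) bsd
      (summable_of (mj_sum L K z) fun k => bsf k α hα) hx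
  -- second derivatives, general form
  have second : ∀ (a e : ℕ → ℝ → ℝ) (C C' : ℝ), 0 ≤ C' →
      (∀ k, ∀ x ∈ Ioo x₀ x₁, HasDerivAt (e (k + 1)) (m x * a k x) x) →
      (∀ x ∈ Ioo x₀ x₁, HasDerivAt (e 0) 0 x) →
      (∀ k, ∀ x ∈ Ioo x₀ x₁, |a k x| * |z| ^ k ≤ mj C' K z k) →
      (∀ k, ∀ x ∈ Ioo x₀ x₁, |e k x| * |z| ^ k ≤ mj C K z k) →
      ∀ x ∈ Ioo x₀ x₁, HasDerivAt (fun x => ∑' k, e k x * z ^ k)
        (z * (m x * ∑' k, a k x * z ^ k)) x := by
    intro a e C C' hC' h1 h0 ba be x hx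
    let b : ℕ → ℝ → ℝ := fun k x => Nat.casesOn k 0 (fun j => m x * a j x)
    have hu : Summable (mj' (M * C') K z) := mj'_sum _ _ _
    have hbb : ∀ k, ∀ y ∈ Ioo x₀ x₁, |b k y| * |z| ^ k ≤ mj' (M * C') K z k := by
      intro k y hy
      rcases k with _ | k
      · change |(0 : ℝ)| * |z| ^ 0 ≤ 0
        simp
      · change |m y * a k y| * |z| ^ (k + 1) ≤ |z| * mj (M * C') K z k
        have h2 := ba k y hy
        have h3 : |m y| ≤ M := by
          rw [abs_of_pos (hW.pos y hy)]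
          exact hW.le y hy
        have h4 : mj (M * C') K z k = M * mj C' K z k := by unfold mj; ring
        rw [h4, abs_mul, pow_succ]
        calc |m y| * |a k y| * (|z| ^ k * |z|) = |z| * (|m y| * (|a k y| * |z| ^ k)) := by ring
          _ ≤ |z| * (M * mj C' K z k) := by
              apply mul_le_mul_of_nonneg_left _ (abs_nonneg z)
              exact mul_le_mul h3 h2 (by positivity) hMpos.le
    have key := term_deriv (a := e) (b := b) hu hα
      (fun k y hy => by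
        rcases k with _ | k
        · exact h0 y hy
        · exact h1 k y hy) hbb
      (summable_of (mj_sum C K z) fun k => be k α hα) hx
    have hsum : Summable fun k => b k x * z ^ k := summable_of hu fun k => hbb k x hx
    have e1 : ∑' k, b k x * z ^ k = z * (m x * ∑' k, a k x * z ^ k) := by
      rw [hsum.tsum_eq_zero_add]
      have e2 : ∀ k, b (k + 1) x * z ^ (k + 1) = (z * m x) * (a k x * z ^ k) := by
        intro k
        change m x * a k x * z ^ (k + 1) = _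
        ring
      have e3 : b 0 x * z ^ 0 = 0 := by
        change (0 : ℝ) * z ^ 0 = 0
        ring
      rw [e3, zero_add]
      simp only [e2]
      rw [tsum_mul_left]
      ring
    rw [e1] at key
    exact key
  have dCd : ∀ x ∈ Ioo x₀ x₁, HasDerivAt (Cdz m α z) (z * (m x * Cz m α z x)) x :=
    second (cf m α) (cd m α) L⁻¹ 1 zero_le_one
      (fun k y hy => (hp1 m x₀ x₁ α β M c hW k y hy).2.2.1)
      (fun y hy => (hp1 m x₀ x₁ α β M c hW 0 y hy).2.2.2.2.1) bcf bcd
  have dSd : ∀ x ∈ Ioo x₀ x₁, HasDerivAt (Sdz m α z) (z * (m x * Sz m α z x)) x :=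
    second (sf m α) (sd m α) 1 L hLpos.le
      (fun k y hy => (hp1 m x₀ x₁ α β M c hW k y hy).2.2.2.1)
      (fun y hy => (hp1 m x₀ x₁ α β M c hW 0 y hy).2.2.2.2.2) bsf bsd
  have dV : ∀ x ∈ Ioo x₀ x₁, HasDerivAt (Vz m α β z) (Vdz m α β z x) x := by
    obtain ⟨D, K', F⟩ := hp3 m x₀ x₁ α β M c hW
    intro x hx
    exact term_deriv (mj_sum D K' z) hα F.dv
      (fun k y hy => le_mj F.hD F.hK.le (n := 2 * k) (by omega) (F.bw k y hy))
      (summable_of (mj_sum D K' z) fun k =>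
        le_mj F.hD F.hK.le (n := 2 * k) (by omega) (F.bv k α hα)) hx
  -- values at `α`
  have vC : Cz m α z α = 1 := by
    unfold Cz
    rw [tsum_eq_single 0]
    · simp [cf]
    · intro k hk
      obtain ⟨j, rfl⟩ := Nat.exists_eq_succ_of_ne_zero hk
      simp [cf]
  have vCd : Cdz m α z α = 0 := by
    unfold Cdz
    rw [tsum_eq_single 0]
    · simp [cd]
    · intro k hk
      obtain ⟨j, rfl⟩ := Nat.exists_eq_succ_of_ne_zero hk
      simp [cd]
  have vS : Sz m α z α = 0 := by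
    unfold Sz
    rw [tsum_eq_single 0]
    · simp [sf]
    · intro k hk
      obtain ⟨j, rfl⟩ := Nat.exists_eq_succ_of_ne_zero hk
      simp [sf]
  have vSd : Sdz m α z α = 1 := by
    unfold Sdz
    rw [tsum_eq_single 0]
    · simp [sd]
    · intro k hk
      obtain ⟨j, rfl⟩ := Nat.exists_eq_succ_of_ne_zero hk
      simp [sd]
  refine ⟨vC, vCd, vS, vSd, ?_⟩
  intro x hx
  refine ⟨dC x hx, dCd x hx, dS x hx, dSd x hx, dV x hx, ?_⟩
  have hwr : ∀ y ∈ Ioo x₀ x₁, HasDerivAt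
      (fun y => Cz m α z y * Sdz m α z y - Cdz m α z y * Sz m α z y) 0 y := by
    intro y hy
    have h1 := ((dC y hy).fun_mul (dSd y hy)).fun_sub ((dCd y hy).fun_mul (dS y hy))
    refine h1.congr_deriv ?_
    ring
  have hconst := isOpen_Ioo.is_const_of_deriv_eq_zero isPreconnected_Ioo
    (fun y hy => (hwr y hy).differentiableAt.differentiableWithinAt)
    (fun y hy => (hwr y hy).deriv) hx hα
  rw [hconst, vC, vCd, vS, vSd]
  ring

end Pool.Agent.Q192.CC
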